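import Mathlib

/-!
# Second moments and almost sure convergence of averages
-/

set_option autoImplicit false

open MeasureTheory Filter Topology Finset

namespace Pool.Agent.J4.H71.UN

/-- Averages of unimodular functions with small second moments tend to zero almost everywhere. -/
theorem ae_avg {Ω : Type} [MeasurableSpace Ω] (P : Measure Ω) [IsProbabilityMeasure P]
    (f : ℕ → Ω → ℂ) (hf : ∀ n, Measurable (f n)) (hb : ∀ n ω, ‖f n ω‖ ≤ 1) (C : ℝ)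
    (hC : ∀ N : ℕ, ∫ ω, ‖∑ n ∈ range N, f n ω‖ ^ 2 ∂P ≤ C * (N : ℝ) ^ (3 / 2 : ℝ)) :
    ∀ᵐ ω ∂P, Tendsto (fun N : ℕ => ‖∑ n ∈ range N, f n ω‖ / N) atTop (𝓝 0) := by
  have hC0 : 0 ≤ C := by
    have := (integral_nonneg (fun ω => by positivity)).trans (hC 1)
    simpa using this
  have hSm : ∀ N, Measurable (fun ω => ‖∑ n ∈ range N, f n ω‖) := fun N =>
    (Finset.measurable_fun_sum _ fun n _ => hf n).norm
  have hSb : ∀ N ω, ‖∑ n ∈ range N, f n ω‖ ≤ N := by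
    intro N ω
    refine (norm_sum_le _ _).trans ?_
    refine (sum_le_sum fun n _ => hb n ω).trans ?_
    simp
  -- the subsequence
  let g : ℕ → Ω → ENNReal := fun j ω =>
    ENNReal.ofReal ((‖∑ n ∈ range ((j + 1) ^ 4), f n ω‖ / ((j + 1 : ℕ) : ℝ) ^ 4) ^ 2)
  have hgm : ∀ j, Measurable (g j) := fun j =>
    (((hSm _).div_const _).pow_const _).ennreal_ofReal
  have hgi : ∀ j, ∫⁻ ω, g j ω ∂P ≤ ENNReal.ofReal (C / ((j + 1 : ℕ) : ℝ) ^ 2) := by
    intro j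
    have hint : Integrable (fun ω => (‖∑ n ∈ range ((j + 1) ^ 4), f n ω‖ /
        ((j + 1 : ℕ) : ℝ) ^ 4) ^ 2) P := by
      refine Integrable.of_bound (((hSm _).div_const _).pow_const _).aestronglyMeasurable 1
        (ae_of_all _ fun ω => ?_)
      rw [Real.norm_of_nonneg (by positivity)]
      have h1 := hSb ((j + 1) ^ 4) ω
      have h2 : (0 : ℝ) < ((j + 1 : ℕ) : ℝ) ^ 4 := by positivity
      have h3 : ‖∑ n ∈ range ((j + 1) ^ 4), f n ω‖ / ((j + 1 : ℕ) : ℝ) ^ 4 ≤ 1 := by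
        rw [div_le_one h2]
        exact_mod_cast h1
      exact pow_le_one₀ (by positivity) h3
    rw [← ofReal_integral_eq_lintegral_ofReal hint (ae_of_all _ fun ω => by positivity)]
    apply ENNReal.ofReal_le_ofReal
    have h4 : ∀ ω, (‖∑ n ∈ range ((j + 1) ^ 4), f n ω‖ / ((j + 1 : ℕ) : ℝ) ^ 4) ^ 2 =
        ‖∑ n ∈ range ((j + 1) ^ 4), f n ω‖ ^ 2 * (1 / ((j + 1 : ℕ) : ℝ) ^ 8) := by
      intro ω
      rw [div_pow, ← pow_mul]
      ring
    simp_rw [h4]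
    rw [integral_mul_const]
    have h5 := hC ((j + 1) ^ 4)
    have h6 : (((j + 1) ^ 4 : ℕ) : ℝ) ^ (3 / 2 : ℝ) = ((j + 1 : ℕ) : ℝ) ^ 6 := by
      push_cast
      rw [← Real.rpow_natCast, ← Real.rpow_mul (by positivity), ← Real.rpow_natCast]
      norm_num
    rw [h6] at h5
    calc (∫ ω, ‖∑ n ∈ range ((j + 1) ^ 4), f n ω‖ ^ 2 ∂P) * (1 / ((j + 1 : ℕ) : ℝ) ^ 8)
        ≤ (C * ((j + 1 : ℕ) : ℝ) ^ 6) * (1 / ((j + 1 : ℕ) : ℝ) ^ 8) :=
          mul_le_mul_of_nonneg_right h5 (by positivity)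
      _ = C / ((j + 1 : ℕ) : ℝ) ^ 2 := by
          have : ((j + 1 : ℕ) : ℝ) ≠ 0 := by positivity
          field_simp
  have hsum : Summable (fun j : ℕ => C / ((j + 1 : ℕ) : ℝ) ^ 2) := by
    have h1 : Summable (fun j : ℕ => 1 / ((j : ℝ)) ^ 2) :=
      Real.summable_one_div_nat_pow.2 (by norm_num)
    have h2 := (summable_nat_add_iff 1).2 h1
    refine (h2.mul_left C).congr fun j => ?_
    push_cast
    ring
  have hlt : ∫⁻ ω, ∑' j, g j ω ∂P ≠ ⊤ := by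
    rw [lintegral_tsum fun j => (hgm j).aemeasurable]
    refine ne_top_of_le_ne_top ?_ (ENNReal.tsum_le_tsum hgi)
    rw [← ENNReal.ofReal_tsum_of_nonneg (fun j => by positivity) hsum]
    exact ENNReal.ofReal_ne_top
  have hae := ae_lt_top (Measurable.tsum fun j => hgm j) hlt
  filter_upwards [hae] with ω hω
  -- convergence along the subsequence
  have h1 : Tendsto (fun j => g j ω) atTop (𝓝 0) := ENNReal.tendsto_atTop_zero_of_tsum_ne_top hω.ne
  have h2 : Tendsto (fun j : ℕ => (‖∑ n ∈ range ((j + 1) ^ 4), f n ω‖ /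
      ((j + 1 : ℕ) : ℝ) ^ 4) ^ 2) atTop (𝓝 0) := by
    have := (ENNReal.tendsto_toReal ENNReal.zero_ne_top).comp h1
    refine (this.congr fun j => ?_)
    exact ENNReal.toReal_ofReal (by positivity)
  have h3 : Tendsto (fun j : ℕ => ‖∑ n ∈ range ((j + 1) ^ 4), f n ω‖ /
      ((j + 1 : ℕ) : ℝ) ^ 4) atTop (𝓝 0) := by
    have h4 := h2.sqrt
    rw [Real.sqrt_zero] at h4
    refine h4.congr fun j => ?_
    exact Real.sqrt_sq (by positivity)
  rw [Metric.tendsto_atTop]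
  intro ε hε
  -- the ratio of consecutive fourth powers
  have h5 : Tendsto (fun j : ℕ => (((j + 2 : ℕ) : ℝ) / ((j + 1 : ℕ) : ℝ)) ^ 4 - 1) atTop (𝓝 0) := by
    have h6 : Tendsto (fun j : ℕ => ((j + 2 : ℕ) : ℝ) / ((j + 1 : ℕ) : ℝ)) atTop (𝓝 1) := by
      have h7 : Tendsto (fun j : ℕ => 1 + 1 / ((j : ℝ) + 1)) atTop (𝓝 (1 + 0)) :=
        tendsto_const_nhds.add tendsto_one_div_add_atTop_nhds_zero_nat
      rw [add_zero] at h7
      refine h7.congr fun j => ?_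
      have : ((j : ℝ) + 1) ≠ 0 := by positivity
      push_cast
      field_simp
      ring
    have h8 := (h6.pow 4).sub_const 1
    simpa using h8
  obtain ⟨J₁, hJ₁⟩ := (Metric.tendsto_atTop.1 h3) (ε / 2) (by positivity)
  obtain ⟨J₂, hJ₂⟩ := (Metric.tendsto_atTop.1 h5) (ε / 2) (by positivity)
  refine ⟨(max J₁ J₂ + 2) ^ 4, fun N hN => ?_⟩
  -- find j with (j+1)^4 ≤ N < (j+2)^4
  obtain ⟨i, hi1, hi2⟩ : ∃ i : ℕ, i ^ 4 ≤ N ∧ N < (i + 1) ^ 4 := by
    have hex : ∃ i : ℕ, N < (i + 1) ^ 4 := ⟨N, by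
      calc N < N + 1 := Nat.lt_succ_self N
        _ ≤ (N + 1) ^ 4 := Nat.le_self_pow (by norm_num) _⟩
    classical
    refine ⟨Nat.find hex, ?_, Nat.find_spec hex⟩
    rcases Nat.eq_zero_or_pos (Nat.find hex) with h0 | h0
    · rw [h0]
      simp
    · have := Nat.find_min hex (m := Nat.find hex - 1) (by omega)
      rw [Nat.sub_add_cancel h0] at this
      omega
  have hi3 : max J₁ J₂ + 2 ≤ i := by
    by_contra hcon
    push Not at hcon
    have : (i + 1) ^ 4 ≤ (max J₁ J₂ + 2) ^ 4 := Nat.pow_le_pow_left (by omega) 4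
    omega
  obtain ⟨j, rfl⟩ : ∃ j, i = j + 1 := ⟨i - 1, by omega⟩
  have hj1 : J₁ ≤ j := by
    have := le_max_left J₁ J₂
    omega
  have hj2 : J₂ ≤ j := by
    have := le_max_right J₁ J₂
    omega
  have e1 := hJ₁ j hj1
  have e2 := hJ₂ j hj2
  rw [Real.dist_eq, sub_zero, abs_of_nonneg (by positivity)] at e1
  rw [Real.dist_eq, sub_zero] at e2
  have e2' := (abs_lt.1 e2).2
  rw [Real.dist_eq, sub_zero, abs_of_nonneg (by positivity)]
  have hpos : (0 : ℝ) < ((j + 1 : ℕ) : ℝ) ^ 4 := by positivity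
  have hNr : ((j + 1 : ℕ) : ℝ) ^ 4 ≤ N := by exact_mod_cast hi1
  have hN0 : (0 : ℝ) < N := hpos.trans_le hNr
  have hsplit : ‖∑ n ∈ range N, f n ω‖ ≤ ‖∑ n ∈ range ((j + 1) ^ 4), f n ω‖ +
      (((j + 2 : ℕ) : ℝ) ^ 4 - ((j + 1 : ℕ) : ℝ) ^ 4) := by
    rw [← Finset.sum_range_add_sum_Ico _ hi1]
    refine (norm_add_le _ _).trans ?_
    gcongr
    refine (norm_sum_le _ _).trans ?_
    refine (sum_le_sum fun n _ => hb n ω).trans ?_
    simp only [sum_const, Nat.card_Ico, nsmul_eq_mul, mul_one]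
    rw [Nat.cast_sub hi1]
    have : (N : ℝ) ≤ ((j + 2 : ℕ) : ℝ) ^ 4 := by
      exact_mod_cast hi2.le
    push_cast at this ⊢
    linarith
  calc ‖∑ n ∈ range N, f n ω‖ / N ≤ (‖∑ n ∈ range ((j + 1) ^ 4), f n ω‖ +
      (((j + 2 : ℕ) : ℝ) ^ 4 - ((j + 1 : ℕ) : ℝ) ^ 4)) / ((j + 1 : ℕ) : ℝ) ^ 4 := by
        apply div_le_div₀ _ hsplit hpos hNr
        have : (((j + 1 : ℕ) : ℝ)) ^ 4 ≤ ((j + 2 : ℕ) : ℝ) ^ 4 := by
          apply pow_le_pow_left₀ (by positivity)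
          push_cast
          linarith
        have h0 := norm_nonneg (∑ n ∈ range ((j + 1) ^ 4), f n ω)
        linarith
    _ = ‖∑ n ∈ range ((j + 1) ^ 4), f n ω‖ / ((j + 1 : ℕ) : ℝ) ^ 4 +
        ((((j + 2 : ℕ) : ℝ) / ((j + 1 : ℕ) : ℝ)) ^ 4 - 1) := by
        rw [div_pow]
        field_simp
    _ < ε / 2 + ε / 2 := add_lt_add e1 e2'
    _ = ε := by ring

end Pool.Agent.J4.H71.UN
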