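import Pool.Agent.H534R3.UD

/-!
# Uniform distribution of `b ^ n x` and blocks of digits
-/

set_option autoImplicit false

open Filter Topology Finset

namespace Pool.Agent.J4.H71.UN

open Pool.Agent.H534R3.UDist

lemma floor_mul_base (y : ℝ) (b : ℕ) (hb : 1 ≤ b) :
    ∃ r : ℤ, 0 ≤ r ∧ r < b ∧ ⌊y * b⌋ = ⌊y⌋ * b + r := by
  have hb0 : (0 : ℝ) < b := by exact_mod_cast hb
  refine ⟨⌊Int.fract y * b⌋, ?_, ?_, ?_⟩
  · apply Int.floor_nonneg.2
    have := Int.fract_nonneg y
    positivity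
  · rw [Int.floor_lt]
    have := Int.fract_lt_one y
    push_cast
    nlinarith
  · have : y * b = ((⌊y⌋ * b : ℤ) : ℝ) + Int.fract y * b := by
      push_cast
      have := Int.floor_add_fract y
      nlinarith
    rw [this, Int.floor_intCast_add]

/-- the value of a block -/
def val (b : ℕ) : (k : ℕ) → (Fin k → ℤ) → ℤ
  | 0, _ => 0
  | k + 1, w => val b k (fun j => w j.castSucc) * b + w (Fin.last k)

lemma val_bounds (b : ℕ) : ∀ (k : ℕ) (w : Fin k → ℤ), (∀ j, 0 ≤ w j ∧ w j < b) →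
    0 ≤ val b k w ∧ val b k w < (b : ℤ) ^ k := by
  intro k
  induction k with
  | zero => intro w _; simp [val]
  | succ k ih =>
    intro w hw
    have h1 := ih (fun j => w j.castSucc) (fun j => hw _)
    have h2 := hw (Fin.last k)
    simp only [val]
    constructor
    · have : 0 ≤ val b k (fun j => w j.castSucc) * b := mul_nonneg h1.1 (by positivity)
      linarith [h2.1]
    · have h3 : val b k (fun j => w j.castSucc) + 1 ≤ (b : ℤ) ^ k := h1.2
      have h4 : (val b k (fun j => w j.castSucc) + 1) * b ≤ (b : ℤ) ^ k * b :=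
        mul_le_mul_of_nonneg_right h3 (by positivity)
      rw [pow_succ]
      linarith [h2.2]

lemma block_iff (b : ℕ) (hb : 1 ≤ b) (y : ℝ) : ∀ (k : ℕ) (w : Fin k → ℤ),
    (∀ j, 0 ≤ w j ∧ w j < b) →
    ((∀ j : Fin k, ⌊y * (b : ℝ) ^ (j.val + 1)⌋ % (b : ℤ) = w j) ↔
      ⌊y * (b : ℝ) ^ k⌋ % (b : ℤ) ^ k = val b k w) := by
  intro k
  induction k with
  | zero => intro w _; simp [val]
  | succ k ih =>
    intro w hw
    have ih' := ih (fun j => w j.castSucc) (fun j => hw _)
    have hb0 : (0 : ℤ) < b := by exact_mod_cast hb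
    have hval := val_bounds b k (fun j => w j.castSucc) (fun j => hw _)
    obtain ⟨r, hr0, hr1, hr⟩ := floor_mul_base (y * (b : ℝ) ^ k) b hb
    have e1 : y * (b : ℝ) ^ (k + 1) = y * (b : ℝ) ^ k * b := by ring
    set q : ℤ := ⌊y * (b : ℝ) ^ k⌋ with hq
    have e2 : ⌊y * (b : ℝ) ^ (k + 1)⌋ = q * b + r := by rw [e1, hr]
    have e3 : (q * b + r) % (b : ℤ) = r := by
      rw [Int.add_emod, Int.mul_emod_left, zero_add, Int.emod_emod_of_dvd _ (dvd_refl _),
        Int.emod_eq_of_lt hr0 hr1]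
    have e4 : (q * b + r) % (b : ℤ) ^ (k + 1) = (q % (b : ℤ) ^ k) * b + r := by
      have h1 : q * b + r = ((q % (b : ℤ) ^ k) * b + r) + (b : ℤ) ^ (k + 1) * (q / (b : ℤ) ^ k) := by
        have := Int.emod_add_mul_ediv q ((b : ℤ) ^ k)
        calc q * b + r = (q % (b : ℤ) ^ k + (b : ℤ) ^ k * (q / (b : ℤ) ^ k)) * b + r := by rw [this]
          _ = _ := by ring
      rw [h1, Int.add_mul_emod_self_left]
      have hp : (0 : ℤ) < (b : ℤ) ^ k := by positivity
      have h2 := Int.emod_nonneg q hp.ne'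
      have h3 := Int.emod_lt_of_pos q hp
      apply Int.emod_eq_of_lt
      · have := mul_nonneg h2 hb0.le
        linarith
      · have h4 : (q % (b : ℤ) ^ k + 1) * b ≤ (b : ℤ) ^ k * b :=
          mul_le_mul_of_nonneg_right h3 hb0.le
        rw [pow_succ]
        linarith
    rw [Fin.forall_fin_succ', e2, e4]
    simp only [Fin.val_castSucc, Fin.val_last]
    rw [e2, e3, ih']
    simp only [val]
    constructor
    · rintro ⟨h1, h2⟩
      rw [h1, h2]
    · intro h
      have hw2 := hw (Fin.last k)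
      -- uniqueness of the last digit
      have h5 : r = w (Fin.last k) := by
        have h6 : ((q % (b : ℤ) ^ k) * b + r) % b = (val b k (fun j => w j.castSucc) * b +
            w (Fin.last k)) % b := by rw [h]
        have h7 : ((q % (b : ℤ) ^ k) * b + r) % b = r := by
          rw [Int.add_emod, Int.mul_emod_left, zero_add, Int.emod_emod_of_dvd _ (dvd_refl _),
            Int.emod_eq_of_lt hr0 hr1]
        have h8 : (val b k (fun j => w j.castSucc) * b + w (Fin.last k)) % b = w (Fin.last k) := by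
          rw [Int.add_emod, Int.mul_emod_left, zero_add, Int.emod_emod_of_dvd _ (dvd_refl _),
            Int.emod_eq_of_lt hw2.1 hw2.2]
        rw [h7, h8] at h6
        exact h6
      refine ⟨?_, h5⟩
      rw [h5] at h
      have h9 := add_right_cancel h
      exact mul_right_cancel₀ hb0.ne' h9

lemma block_iff' (b : ℕ) (hb : 1 ≤ b) (y : ℝ) (k : ℕ) (w : Fin k → ℤ)
    (hw : ∀ j, 0 ≤ w j ∧ w j < b) :
    (∀ j : Fin k, ⌊y * (b : ℝ) ^ (j.val + 1)⌋ % (b : ℤ) = w j) ↔
      (val b k w : ℝ) / (b : ℝ) ^ k ≤ Int.fract y ∧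
        Int.fract y < ((val b k w : ℝ) + 1) / (b : ℝ) ^ k := by
  rw [block_iff b hb y k w hw]
  have hp : (0 : ℝ) < (b : ℝ) ^ k := by positivity
  have hpz : (0 : ℤ) < (b : ℤ) ^ k := by positivity
  have h1 : y * (b : ℝ) ^ k = Int.fract y * (b : ℝ) ^ k + ((⌊y⌋ * (b : ℤ) ^ k : ℤ) : ℝ) := by
    push_cast
    have := Int.floor_add_fract y
    nlinarith
  rw [h1, Int.floor_add_intCast, Int.add_mul_emod_self_right]
  have h2 : 0 ≤ ⌊Int.fract y * (b : ℝ) ^ k⌋ := by
    apply Int.floor_nonneg.2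
    have := Int.fract_nonneg y
    positivity
  have h3 : ⌊Int.fract y * (b : ℝ) ^ k⌋ < (b : ℤ) ^ k := by
    rw [Int.floor_lt]
    have := Int.fract_lt_one y
    push_cast
    nlinarith
  rw [Int.emod_eq_of_lt h2 h3, Int.floor_eq_iff, div_le_iff₀ hp, lt_div_iff₀ hp]

/-- Uniform distribution of `b ^ n x` gives the frequencies of the blocks of digits. -/
theorem freq (b : ℕ) (hb : 2 ≤ b) (x : ℝ) (h : UD (fun n => (b : ℝ) ^ n * x)) (k : ℕ)
    (w : Fin k → ℤ) (hw : ∀ j : Fin k, 0 ≤ w j ∧ w j < (b : ℤ)) :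
    Tendsto (fun N : ℕ =>
      ((((Finset.range N).filter (fun i : ℕ =>
        ∀ j : Fin k, ⌊x * (b : ℝ) ^ (i + j.val + 1)⌋ % (b : ℤ) = w j)).card : ℝ) / (N : ℝ)))
      atTop (𝓝 (1 / (b : ℝ) ^ k)) := by
  have hp : (0 : ℝ) < (b : ℝ) ^ k := by
    have : (0 : ℝ) < b := by
      have : 0 < b := by omega
      exact_mod_cast this
    positivity
  have hv := val_bounds b k w hw
  have h1 := h ((val b k w : ℝ) / (b : ℝ) ^ k) (((val b k w : ℝ) + 1) / (b : ℝ) ^ k)
    (div_nonneg (by exact_mod_cast hv.1) hp.le)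
    (div_le_div_of_nonneg_right (by linarith) hp.le)
    (by
      rw [div_le_one hp]
      have : val b k w + 1 ≤ (b : ℤ) ^ k := hv.2
      exact_mod_cast this)
  have e : ((val b k w : ℝ) + 1) / (b : ℝ) ^ k - (val b k w : ℝ) / (b : ℝ) ^ k =
      1 / (b : ℝ) ^ k := by
    rw [← sub_div]
    congr 1
    ring
  rw [e] at h1
  refine h1.congr fun N => ?_
  congr 2
  congr 1
  ext i
  simp only [mem_filter, and_congr_right_iff]
  intro _
  rw [← block_iff' b (by omega) ((b : ℝ) ^ i * x) k w hw]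
  refine forall_congr' fun j => ?_
  have : (b : ℝ) ^ i * x * (b : ℝ) ^ (j.val + 1) = x * (b : ℝ) ^ (i + j.val + 1) := by
    rw [add_assoc i, pow_add]
    ring
  rw [this]

end Pool.Agent.J4.H71.UN
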