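import Pool.Agent.J4.H71.UN.Meas
import Pool.Agent.J4.H71.UN.Del
import Pool.Agent.H534R3.UD

/-!
# The Fourier transform
-/

set_option autoImplicit false

open MeasureTheory Filter Topology Finset ProbabilityTheory

namespace Pool.Agent.J4.H71.UN

open Pool.Agent.H534R3.UDist

lemma ee_add (s t : ℝ) : ee (s + t) = ee s * ee t := by
  rw [ee, ee, ee, ← Complex.exp_add]
  congr 1
  push_cast
  ring

lemma ee_zero : ee 0 = 1 := by simp [ee]

lemma ee_neg (t : ℝ) : ee (-t) = (starRingEnd ℂ) (ee t) := by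
  rw [ee, ee, ← Complex.exp_conj]
  congr 1
  simp only [map_mul, Complex.conj_I, Complex.conj_ofReal, Complex.conj_ofNat]
  push_cast
  ring

lemma ee_sum {ι : Type} (s : Finset ι) (f : ι → ℝ) : ee (∑ i ∈ s, f i) = ∏ i ∈ s, ee (f i) := by
  classical
  induction s using Finset.induction_on with
  | empty => simp [ee_zero]
  | insert a s ha ih => rw [sum_insert ha, prod_insert ha, ee_add, ih]

lemma ee_nat_mul (j : ℕ) (t : ℝ) : ee (j * t) = ee t ^ j := by
  rw [ee, ee, ← Complex.exp_nat_mul]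
  congr 1
  push_cast
  ring

lemma continuous_ee : Continuous ee := by
  unfold ee
  fun_prop

lemma norm_ee_sub_one {t : ℝ} (h0 : 0 ≤ t) (h1 : t ≤ 1 / 2) : 4 * t ≤ ‖ee t - 1‖ := by
  have h2 : ee t = Complex.exp (Complex.I * ((2 * Real.pi * t : ℝ) : ℂ)) := by
    rw [ee]
    congr 1
    push_cast
    ring
  rw [h2, Complex.norm_exp_I_mul_ofReal_sub_one]
  have h3 : 2 * Real.pi * t / 2 = Real.pi * t := by ring
  rw [h3]
  have hpi := Real.pi_pos
  have h4 := Real.mul_le_sin (x := Real.pi * t) (by positivity) (by nlinarith)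
  have h5 : 2 / Real.pi * (Real.pi * t) = 2 * t := by
    field_simp
  rw [h5] at h4
  rw [Real.norm_of_nonneg (by linarith)]
  linarith

lemma geo (n : ℕ) {t : ℝ} (h0 : 0 < t) (h1 : t ≤ 1 / 2) :
    ‖∑ j ∈ range n, ee (j * t)‖ ≤ 1 / (2 * t) := by
  simp_rw [ee_nat_mul]
  have h2 := norm_ee_sub_one h0.le h1
  have h3 : ee t - 1 ≠ 0 := by
    intro h
    rw [h, norm_zero] at h2
    linarith
  have h4 : (∑ j ∈ range n, ee t ^ j) * (ee t - 1) = ee t ^ n - 1 := geom_sum_mul _ _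
  have h5 : ‖∑ j ∈ range n, ee t ^ j‖ * ‖ee t - 1‖ ≤ 2 := by
    rw [← norm_mul, h4]
    refine (norm_sub_le _ _).trans ?_
    rw [norm_pow, norm_ee]
    norm_num
  have h6 : 0 ≤ ‖∑ j ∈ range n, ee t ^ j‖ := norm_nonneg _
  rw [le_div_iff₀ (by linarith)]
  nlinarith

variable {M : ℕ → ℕ} (hM : Good M)

lemma integral_unif (n : ℕ) (f : Fin n → ℂ) :
    ∫ i, f i ∂(unif n) = (n : ℂ)⁻¹ * ∑ i, f i := by
  unfold unif
  rw [integral_smul_measure, integral_count]
  simp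

lemma integral_coord (ξ : ℝ) (j : ℕ) :
    ∫ ω, ee (ξ * (((ω j : ℕ) : ℝ) * (1 / 2) ^ (M (j + 1)))) ∂(P M) =
      ((2 ^ L M j : ℕ) : ℂ)⁻¹ * ∑ i ∈ range (2 ^ L M j), ee (i * (ξ * (1 / 2) ^ (M (j + 1)))) := by
  have h1 : ∫ ω, ee (ξ * (((ω j : ℕ) : ℝ) * (1 / 2) ^ (M (j + 1)))) ∂(P M) =
      ∫ i : Fin (2 ^ L M j), ee (ξ * (((i : ℕ) : ℝ) * (1 / 2) ^ (M (j + 1))))
        ∂((P M).map (fun ω : Om M => ω j)) := by
    rw [integral_map (measurable_pi_apply j).aemeasurable]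
    exact (continuous_of_discreteTopology (α := Fin (2 ^ L M j))).aestronglyMeasurable
  rw [h1]
  unfold P
  rw [Measure.infinitePi_map_eval, integral_unif]
  congr 1
  rw [← Fin.sum_univ_eq_sum_range (fun i => ee (i * (ξ * (1 / 2) ^ (M (j + 1)))))]
  apply sum_congr rfl
  intro i _
  congr 1
  ring

lemma integral_S (ξ : ℝ) (n : ℕ) :
    ∫ ω, ee (ξ * S M n ω) ∂(P M) =
      ∏ j ∈ range n, ∫ ω, ee (ξ * (((ω j : ℕ) : ℝ) * (1 / 2) ^ (M (j + 1)))) ∂(P M) := by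
  have h1 : iIndepFun (fun (j : ℕ) (ω : Om M) => ω j) (P M) := by
    unfold P
    exact iIndepFun_infinitePi (X := fun j (x : Fin (2 ^ L M j)) => x) (fun j => measurable_id)
  have h2 : iIndepFun (fun (j : Fin n) (ω : Om M) => ω (j : ℕ)) (P M) :=
    h1.precomp Fin.val_injective
  have h3 := h2.integral_fun_prod_comp (𝕜 := ℂ)
    (f := fun (j : Fin n) (i : Fin (2 ^ L M j)) =>
      ee (ξ * (((i : ℕ) : ℝ) * (1 / 2) ^ (M ((j : ℕ) + 1)))))
    (fun j => (measurable_pi_apply (j : ℕ)).aemeasurable)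
    (fun j => (continuous_of_discreteTopology (α := Fin (2 ^ L M j))).aestronglyMeasurable)
  rw [← Fin.prod_univ_eq_prod_range (fun j => ∫ ω, ee (ξ * (((ω j : ℕ) : ℝ) *
    (1 / 2) ^ (M (j + 1)))) ∂(P M)), ← h3]
  congr 1
  ext ω
  rw [S, mul_sum, ee_sum]
  rw [← Fin.prod_univ_eq_prod_range (fun j => ee (ξ * (((ω j : ℕ) : ℝ) *
    (1 / 2) ^ (M (j + 1)))))]

include hM

lemma norm_integral_X_le (ξ : ℝ) (k : ℕ) :
    ‖∫ ω, ee (ξ * X M ω) ∂(P M)‖ ≤
      ‖∫ ω, ee (ξ * (((ω k : ℕ) : ℝ) * (1 / 2) ^ (M (k + 1)))) ∂(P M)‖ := by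
  have h1 : Tendsto (fun n => ∫ ω, ee (ξ * S M n ω) ∂(P M)) atTop
      (𝓝 (∫ ω, ee (ξ * X M ω) ∂(P M))) := by
    apply tendsto_integral_of_dominated_convergence (fun _ => 1)
    · intro n
      exact (continuous_ee.comp (continuous_const.mul (continuous_S n))).aestronglyMeasurable
    · exact integrable_const _
    · intro n
      exact ae_of_all _ fun ω => by rw [norm_ee]
    · refine ae_of_all _ fun ω => ?_
      exact (continuous_ee.tendsto _).comp ((tendsto_S hM ω).const_mul ξ)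
  apply le_of_tendsto h1.norm
  filter_upwards [eventually_gt_atTop k] with n hn
  rw [integral_S, norm_prod]
  rw [← Finset.mul_prod_erase (range n) _ (by simpa using hn : k ∈ range n)]
  apply mul_le_of_le_one_right (norm_nonneg _)
  apply prod_le_one
  · intro j _
    exact norm_nonneg _
  · intro j _
    refine (norm_integral_le_of_norm_le_const (C := 1) (ae_of_all _ fun ω => ?_)).trans ?_
    · rw [norm_ee]
    · simp

/-- The decay of the Fourier transform. -/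
theorem decay (ξ : ℝ) (k : ℕ) (h0 : 0 < ξ) (h1 : 2 * ξ ≤ 2 ^ M (k + 1)) :
    ‖∫ ω, ee (ξ * X M ω) ∂(P M)‖ ≤ 2 ^ M k / ξ := by
  refine (norm_integral_X_le hM ξ k).trans ?_
  rw [integral_coord, norm_mul]
  have h2 : (0 : ℝ) < (1 / 2) ^ (M (k + 1)) := by positivity
  have h3 : (1 / 2 : ℝ) ^ (M (k + 1)) * 2 ^ M (k + 1) = 1 := by
    rw [← mul_pow]
    norm_num
  have h4 := geo (2 ^ L M k) (t := ξ * (1 / 2) ^ (M (k + 1))) (by positivity) (by nlinarith)
  rw [norm_inv, Complex.norm_natCast]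
  have h5 : (((2 ^ L M k : ℕ) : ℝ))⁻¹ * (1 / (2 * (ξ * (1 / 2) ^ (M (k + 1))))) = 2 ^ M k / ξ := by
    have h6 : (2 : ℝ) ^ M (k + 1) = 2 * 2 ^ M k * 2 ^ L M k := by
      rw [L_eq hM k, pow_add, pow_succ]
      ring
    have h7 : (0 : ℝ) < 2 ^ M k := by positivity
    have h8 : (0 : ℝ) < 2 ^ L M k := by positivity
    have h9 : (1 / 2 : ℝ) ^ (M (k + 1)) = 1 / (2 * 2 ^ M k * 2 ^ L M k) := by
      rw [← h6, one_div_pow]
    rw [h9]
    push_cast
    field_simp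
  rw [← h5]
  exact mul_le_mul_of_nonneg_left h4 (by positivity)

end Pool.Agent.J4.H71.UN
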