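import Pool.Agent.J4.H71.UN.Mom
import Pool.Agent.J4.H71.UN.Dig
import Pool.Agent.Y249.SU.Bump
import Pool.Agent.Y249.SU.CL
import Pool.Agent.Y249.SU.Raj

/-!
# Sets of uniqueness of large Hausdorff measure consisting mostly of absolutely normal numbers
-/

set_option autoImplicit false

open MeasureTheory Filter Topology Finset
open scoped ENNReal

namespace Pool.Agent.J4.H71.UN

open Pool.Agent.H534R3.UDist

/-- The sparse positions for a gauge. -/
lemma exists_M (φ : ℝ → ℝ) (hpos : ∀ r : ℝ, 0 < r → 0 < φ r)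
    (hφ : Tendsto (fun r : ℝ => r / φ r) (𝓝[>] (0:ℝ)) (𝓝 0)) :
    ∃ M : ℕ → ℕ, Good M ∧ (∀ k, k ^ 2 ≤ M k) ∧
      ∀ k, ∀ r : ℝ, 0 < r → r < (1 / 2) ^ M (k + 1) → 2 ^ (k + 2) * r ≤ φ r := by
  have h1 : ∀ k : ℕ, ∃ m : ℕ, ∀ r : ℝ, 0 < r → r < (1 / 2) ^ m → 2 ^ (k + 2) * r ≤ φ r := by
    intro k
    have h2 : ∀ᶠ r in 𝓝[>] (0 : ℝ), r / φ r < 1 / 2 ^ (k + 2) :=
      hφ.eventually_lt_const (by positivity)
    rw [eventually_nhdsWithin_iff, Metric.eventually_nhds_iff] at h2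
    obtain ⟨δ, hδ, h3⟩ := h2
    obtain ⟨m, hm⟩ := exists_pow_lt_of_lt_one hδ (by norm_num : (1 / 2 : ℝ) < 1)
    refine ⟨m, fun r hr0 hr1 => ?_⟩
    have h4 := h3 (y := r) (by
      rw [Real.dist_eq, sub_zero, abs_of_pos hr0]
      linarith) hr0
    rw [div_lt_div_iff₀ (hpos r hr0) (by positivity)] at h4
    linarith
  choose m hm using h1
  let M : ℕ → ℕ := fun k => Nat.rec 0 (fun k p => p + 2 + m k + (k + 1) ^ 2) k
  have hMs : ∀ k, M (k + 1) = M k + 2 + m k + (k + 1) ^ 2 := fun k => rfl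
  refine ⟨M, ⟨rfl, fun k => ?_⟩, fun k => ?_, fun k r hr0 hr1 => ?_⟩
  · rw [hMs]
    omega
  · cases k with
    | zero => simp
    | succ k =>
      rw [hMs]
      omega
  · apply hm k r hr0
    refine hr1.trans_le ?_
    apply pow_le_pow_of_le_one (by norm_num) (by norm_num)
    rw [hMs]
    omega

variable {M : ℕ → ℕ} (hM : Good M)

include hM

lemma isClosed_range_X : IsClosed (Set.range (X M)) :=
  (isCompact_range (continuous_X hM)).isClosed

lemma X_mem (ω : Om M) : X M ω ∈ Set.Icc (0 : ℝ) (1 / 2) := by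
  have h1 := S_le_X hM ω 0
  have h2 := X_le hM ω 0
  have h3 : S M 0 ω = 0 := by simp [S]
  rw [h3] at h1 h2
  rw [g, hM.zero] at h2
  norm_num at h2
  exact ⟨h1, by linarith⟩

/-- The range is a set of uniqueness. -/
theorem uniq (c : ℤ → ℂ)
    (hc : ∀ x : ℝ, (∀ m : ℤ, x + (m:ℝ) ∉ Set.range (X M)) →
      Tendsto (fun N : ℕ => ∑ n ∈ Finset.Icc (-(N:ℤ)) (N:ℤ),
        c n * Complex.exp (2 * (Real.pi:ℂ) * Complex.I * (n:ℂ) * (x:ℂ))) atTop (𝓝 0)) (n : ℤ) :
    c n = 0 := by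
  obtain ⟨γ, hγ, hγ0, hγz⟩ := Pool.Agent.Y249.SU.exists_gamma
  have hper : ∀ (x : ℝ) (m : ℤ), Pool.Agent.Y249.SU.lam γ (x + m) = Pool.Agent.Y249.SU.lam γ x := by
    intro x m
    unfold Pool.Agent.Y249.SU.lam
    congr 1
    ext j
    have : Pool.Agent.Y249.SU.E j (m : ℝ) = 1 := by
      rw [Pool.Agent.Y249.SU.E]
      have : (2 * (Real.pi : ℂ) * Complex.I * (j : ℂ) * ((m : ℝ) : ℂ)) =
          ((j * m : ℤ) : ℂ) * (2 * Real.pi * Complex.I) := by
        push_cast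
        ring
      rw [this, Complex.exp_int_mul_two_pi_mul_I]
    rw [Pool.Agent.Y249.SU.E_add, this, mul_one]
  apply Pool.Agent.Y249.SU.uniqueness (K := Set.range (X M)) (M := fun k => ((2 ^ M k : ℕ) : ℤ))
    (γ := γ) (a := 1 / 2) (b := 1) _ hγ hγ0 _ (by norm_num) _ (c := c) _ n
  · apply tendsto_natCast_atTop_atTop.comp
    apply tendsto_atTop_mono (f := fun k => k) _ tendsto_id
    intro k
    have := two_mul_le hM k
    have h2 : M k < 2 ^ M k := Nat.lt_two_pow_self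
    omega
  · rintro x ⟨ω, rfl⟩ k
    obtain ⟨m, t, ht, he⟩ := avoid hM ω k
    have h1 : (((2 ^ M k : ℕ) : ℤ) : ℝ) * X M ω = t + m := by
      push_cast
      exact he
    rw [h1, hper]
    exact hγz t ht
  · rintro x hx m ⟨ω, hω⟩
    have h1 := X_mem hM ω
    rw [hω] at h1
    have h2 : m = 0 ∨ 1 ≤ m ∨ m ≤ -1 := by omega
    rcases h2 with h2 | h2 | h2
    · rw [h2, Int.cast_zero, add_zero] at h1
      linarith [hx.1, h1.2]
    · have : (1 : ℝ) ≤ m := by exact_mod_cast h2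
      linarith [hx.1, h1.2]
    · have : (m : ℝ) ≤ -1 := by exact_mod_cast h2
      linarith [hx.2, h1.1]
  · intro x hx
    exact hc x hx

/-- almost every point is absolutely normal -/
theorem ae_normal (hsq : ∀ k, k ^ 2 ≤ M k) :
    ∀ᵐ ω ∂(P M), ∀ b : ℕ, 2 ≤ b → ∀ k : ℕ, ∀ w : Fin k → ℤ,
      (∀ j : Fin k, 0 ≤ w j ∧ w j < (b:ℤ)) →
      Tendsto (fun N : ℕ =>
        ((((Finset.range N).filter (fun i : ℕ =>
          ∀ j : Fin k, ⌊X M ω * (b:ℝ) ^ (i + j.val + 1)⌋ % (b:ℤ) = w j)).card : ℝ) / (N:ℝ)))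
        atTop (𝓝 (1 / (b:ℝ) ^ k)) := by
  have h1 : ∀ b : ℕ, 2 ≤ b → ∀ h : ℕ, 1 ≤ h → ∀ᵐ ω ∂(P M),
      Tendsto (fun N : ℕ => ‖∑ n ∈ range N, ee (h * ((b : ℝ) ^ n * X M ω))‖ / N) atTop (𝓝 0) := by
    intro b hb h hh
    obtain ⟨C, hC⟩ := moment hM hsq b h hb hh
    apply ae_avg (P M) (fun n ω => ee (h * ((b : ℝ) ^ n * X M ω))) _ _ C hC
    · intro n
      exact (continuous_ee.comp (continuous_const.mul (continuous_const.mul
        (continuous_X hM)))).measurable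
    · intro n ω
      rw [norm_ee]
  have h2 : ∀ᵐ ω ∂(P M), ∀ b : ℕ, 2 ≤ b → ∀ h : ℕ, 1 ≤ h →
      Tendsto (fun N : ℕ => ‖∑ n ∈ range N, ee (h * ((b : ℝ) ^ n * X M ω))‖ / N) atTop (𝓝 0) := by
    rw [ae_all_iff]
    intro b
    by_cases hb : 2 ≤ b
    · simp only [hb, forall_const]
      rw [ae_all_iff]
      intro h
      by_cases hh : 1 ≤ h
      · simp only [hh, forall_const]
        exact h1 b hb h hh
      · exact ae_of_all _ fun ω hh' => absurd hh' hh
    · exact ae_of_all _ fun ω hb' => absurd hb' hb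
  filter_upwards [h2] with ω hω b hb k w hw
  exact freq b hb (X M ω) (ud_of_weyl _ fun h hh => hω b hb h hh) k w hw

/-- the mass of small sets -/
lemma mass (φ : ℝ → ℝ) (hφ0 : φ 0 = 0)
    (hφ : ∀ k, ∀ r : ℝ, 0 < r → r < (1 / 2) ^ M (k + 1) → 2 ^ (k + 2) * r ≤ φ r)
    (s : Set ℝ) (hs : Metric.ediam s ≤ ENNReal.ofReal ((1 / 2) ^ (M 1 + 1))) :
    (P M).map (X M) s ≤ 3 * ENNReal.ofReal (φ (Metric.ediam s).toReal) := by
  have hXm : Measurable (X M) := (continuous_X hM).measurable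
  rcases s.eq_empty_or_nonempty with rfl | ⟨x₀, hx₀⟩
  · simp
  have hfin : Metric.ediam s ≠ ⊤ := ne_top_of_le_ne_top ENNReal.ofReal_ne_top hs
  set d : ℝ := (Metric.ediam s).toReal with hd
  have hd0 : 0 ≤ d := ENNReal.toReal_nonneg
  have hdle : d ≤ (1 / 2) ^ (M 1 + 1) := by
    rw [hd]
    exact ENNReal.toReal_le_of_le_ofReal (by positivity) hs
  have hbdd : Bornology.IsBounded s := Metric.isBounded_iff_ediam_ne_top.2 hfin
  obtain ⟨u, hu⟩ : ∃ u, s ⊆ Set.Icc u (u + d) := by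
    refine ⟨sInf s, fun y hy => ?_⟩
    have h1 : sInf s ≤ y := csInf_le hbdd.bddBelow hy
    refine ⟨h1, ?_⟩
    have h2 : y - d ≤ sInf s := by
      apply le_csInf ⟨x₀, hx₀⟩
      intro z hz
      have h3 : dist y z ≤ d := by
        rw [hd]
        exact Metric.dist_le_diam_of_mem hbdd hy hz
      rw [Real.dist_eq] at h3
      linarith [le_abs_self (y - z)]
    linarith
  have hmap : (P M).map (X M) s ≤ P M (X M ⁻¹' Set.Icc u (u + d)) := by
    refine (measure_mono hu).trans ?_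
    rw [Measure.map_apply hXm measurableSet_Icc]
  refine hmap.trans ?_
  rcases hd0.eq_or_lt with h0 | h0
  · -- atoms
    rw [← h0, hφ0, ENNReal.ofReal_zero, mul_zero, nonpos_iff_eq_zero]
    have h1 : ∀ k, P M (X M ⁻¹' Set.Icc u (u + 0)) ≤ ENNReal.ofReal (3 * (1 / 2) ^ k) := by
      intro k
      have h2 := ball hM k u ((1 / 2) ^ M k) le_rfl
      have h3 : X M ⁻¹' Set.Icc u (u + 0) ⊆ X M ⁻¹' Set.Icc u (u + (1 / 2) ^ M k) := by
        apply Set.preimage_mono
        apply Set.Icc_subset_Icc_right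
        have : (0 : ℝ) < (1 / 2) ^ M k := by positivity
        linarith
      refine (measure_mono h3).trans (h2.trans ?_)
      apply ENNReal.ofReal_le_ofReal
      have h4 : (2 : ℝ) ^ k * (1 / 2) ^ M k ≤ (1 / 2) ^ k := by
        have h5 : (1 / 2 : ℝ) ^ M k ≤ (1 / 2) ^ (k + k) := by
          apply pow_le_pow_of_le_one (by norm_num) (by norm_num)
          have := two_mul_le hM k
          omega
        calc (2 : ℝ) ^ k * (1 / 2) ^ M k ≤ 2 ^ k * (1 / 2) ^ (k + k) :=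
              mul_le_mul_of_nonneg_left h5 (by positivity)
          _ = (2 * (1 / 2)) ^ k * (1 / 2) ^ k := by rw [mul_pow, pow_add]; ring
          _ = (1 / 2) ^ k := by norm_num
      linarith
    have h2 : Tendsto (fun k : ℕ => ENNReal.ofReal (3 * (1 / 2) ^ k)) atTop (𝓝 0) := by
      rw [← ENNReal.ofReal_zero]
      apply ENNReal.tendsto_ofReal
      have := (tendsto_pow_atTop_nhds_zero_of_lt_one (by norm_num)
        (by norm_num : (1 / 2 : ℝ) < 1)).const_mul 3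
      rwa [mul_zero] at this
    exact le_antisymm (ge_of_tendsto' h2 h1) (zero_le)
  · -- the scale of d
    have hex : ∃ k, (1 / 2 : ℝ) ^ M k ≤ d := by
      obtain ⟨k, hk⟩ := exists_pow_lt_of_lt_one h0 (by norm_num : (1 / 2 : ℝ) < 1)
      refine ⟨k, le_trans ?_ hk.le⟩
      apply pow_le_pow_of_le_one (by norm_num) (by norm_num)
      have := two_mul_le hM k
      omega
    classical
    have hk1 := Nat.find_spec hex
    set k := Nat.find hex with hk
    have h1lt : d < (1 / 2) ^ M 1 := by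
      refine hdle.trans_lt ?_
      rw [pow_succ]
      have : (0 : ℝ) < (1 / 2) ^ M 1 := by positivity
      linarith
    have hk2 : 2 ≤ k := by
      by_contra hcon
      have h2 : k = 0 ∨ k = 1 := by omega
      rcases h2 with h2 | h2
      · rw [h2, hM.zero, pow_zero] at hk1
        have : (1 / 2 : ℝ) ^ M 1 ≤ 1 := pow_le_one₀ (by norm_num) (by norm_num)
        linarith
      · rw [h2] at hk1
        linarith
    obtain ⟨j, hj⟩ : ∃ j, k = j + 2 := ⟨k - 2, by omega⟩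
    have h2 := Nat.find_min hex (m := j + 1) (by omega)
    push Not at h2
    have h3 := hφ j d h0 h2
    have h4 := ball hM k u d hk1
    refine h4.trans ?_
    have h5 : (3 : ENNReal) = ENNReal.ofReal 3 := by simp
    rw [h5, ← ENNReal.ofReal_mul (by norm_num)]
    apply ENNReal.ofReal_le_ofReal
    rw [hj]
    linarith

end Pool.Agent.J4.H71.UN
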