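import Mathlib

/-!
# Random numbers with very few prescribed binary digits
-/

set_option autoImplicit false

open MeasureTheory Filter Topology Finset

namespace Pool.Agent.J4.H71.UN

/-- lengths of the free blocks -/
def L (M : ℕ → ℕ) (k : ℕ) : ℕ := M (k + 1) - M k - 1

/-- the space of the free blocks -/
abbrev Om (M : ℕ → ℕ) : Type := (k : ℕ) → Fin (2 ^ L M k)

/-- partial sums -/
noncomputable def S (M : ℕ → ℕ) (n : ℕ) (ω : Om M) : ℝ :=
  ∑ j ∈ range n, ((ω j : ℕ) : ℝ) * (1 / 2) ^ (M (j + 1))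

/-- the number -/
noncomputable def X (M : ℕ → ℕ) (ω : Om M) : ℝ :=
  ∑' j, ((ω j : ℕ) : ℝ) * (1 / 2) ^ (M (j + 1))

/-- tails -/
noncomputable def g (M : ℕ → ℕ) (k : ℕ) : ℝ := (1 / 2) ^ (M k + 1)

/-- sparse -/
structure Good (M : ℕ → ℕ) : Prop where
  zero : M 0 = 0
  step : ∀ k, M k + 2 ≤ M (k + 1)

variable {M : ℕ → ℕ} (hM : Good M)

include hM

lemma L_eq (k : ℕ) : M (k + 1) = M k + 1 + L M k := by
  have := hM.step k
  unfold L
  omega

lemma term_le (ω : Om M) (k : ℕ) :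
    ((ω k : ℕ) : ℝ) * (1 / 2) ^ (M (k + 1)) ≤ g M k - g M (k + 1) := by
  have h1 : ((ω k : ℕ) : ℝ) + 1 ≤ 2 ^ L M k := by
    have := (ω k).2
    exact_mod_cast this
  have h2 : (0 : ℝ) < (1 / 2) ^ (M (k + 1)) := by positivity
  have h3 : (2 : ℝ) ^ L M k * (1 / 2) ^ (M (k + 1)) = g M k := by
    rw [L_eq hM k, g, pow_add, mul_comm, mul_assoc, ← mul_pow]
    norm_num
  have h4 : g M (k + 1) = (1 / 2) ^ (M (k + 1)) * (1 / 2) := by
    rw [g, pow_succ]
  nlinarith

lemma partial_le (ω : Om M) (k n : ℕ) : S M (k + n) ω - S M k ω ≤ g M k - g M (k + n) := by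
  induction n with
  | zero => simp
  | succ n ih =>
    have h1 : S M (k + (n + 1)) ω = S M (k + n) ω + ((ω (k + n) : ℕ) : ℝ) *
        (1 / 2) ^ (M (k + n + 1)) := by
      rw [← add_assoc, S, sum_range_succ, ← S]
    have h2 := term_le hM ω (k + n)
    rw [h1]
    rw [← add_assoc]
    linarith

omit hM in
lemma g_pos (k : ℕ) : 0 < g M k := by
  unfold g
  positivity

lemma two_mul_le (k : ℕ) : 2 * k ≤ M k := by
  induction k with
  | zero => simp
  | succ k ih =>
    have := hM.step k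
    omega

lemma g_tendsto : Tendsto (g M) atTop (𝓝 0) := by
  unfold g
  apply (tendsto_pow_atTop_nhds_zero_of_lt_one (by norm_num) (by norm_num :
    (1 / 2 : ℝ) < 1)).comp
  apply tendsto_atTop_mono (f := fun k => k) _ tendsto_id
  intro k
  have := two_mul_le hM k
  omega

lemma summable_term (ω : Om M) : Summable fun j => ((ω j : ℕ) : ℝ) * (1 / 2) ^ (M (j + 1)) := by
  apply summable_of_sum_range_le (c := g M 0)
  · intro n
    positivity
  · intro n
    have h1 := partial_le hM ω 0 n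
    have h2 := g_pos (M := M) (0 + n)
    have h3 : S M 0 ω = 0 := by simp [S]
    have h4 : S M (0 + n) ω = ∑ j ∈ range n, ((ω j : ℕ) : ℝ) * (1 / 2) ^ (M (j + 1)) := by
      rw [zero_add, S]
    rw [h3, h4] at h1
    linarith

lemma tendsto_S (ω : Om M) : Tendsto (fun n => S M n ω) atTop (𝓝 (X M ω)) :=
  (summable_term hM ω).hasSum.tendsto_sum_nat

lemma S_le_X (ω : Om M) (k : ℕ) : S M k ω ≤ X M ω :=
  (summable_term hM ω).sum_le_tsum _ fun j _ => by positivity

lemma X_le (ω : Om M) (k : ℕ) : X M ω ≤ S M k ω + g M k := by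
  apply le_of_tendsto' ((tendsto_S hM ω).comp (tendsto_add_atTop_nat k))
  intro n
  have h1 := partial_le hM ω k n
  have h2 := g_pos (M := M) (k + n)
  simp only [Function.comp]
  rw [add_comm n k]
  linarith

omit hM in
lemma continuous_S (n : ℕ) : Continuous (S M n) := by
  unfold S
  apply continuous_finsetSum
  intro j _
  apply Continuous.mul _ continuous_const
  have : Continuous (fun i : Fin (2 ^ L M j) => ((i : ℕ) : ℝ)) := continuous_of_discreteTopology
  exact this.comp (continuous_apply j)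

lemma continuous_X : Continuous (X M) := by
  have h : TendstoUniformly (fun n ω => S M n ω) (X M) atTop := by
    rw [Metric.tendstoUniformly_iff]
    intro ε hε
    filter_upwards [(g_tendsto hM).eventually_lt_const hε] with n hn ω
    rw [Real.dist_eq, abs_of_nonneg (by linarith [S_le_X hM ω n])]
    have := X_le hM ω n
    linarith
  exact h.continuous (Frequently.of_forall fun n => continuous_S n)

/-- the integer part of `2 ^ M k * x` -/
def A (M : ℕ → ℕ) (k : ℕ) (ω : Om M) : ℕ := ∑ j ∈ range k, (ω j : ℕ) * 2 ^ (M k - M (j + 1))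

lemma mono (j k : ℕ) (h : j ≤ k) : M j ≤ M k :=
  monotone_nat_of_le_succ (fun n => by have := hM.step n; omega) h

lemma A_eq (ω : Om M) (k : ℕ) : S M k ω * 2 ^ M k = A M k ω := by
  unfold S A
  rw [sum_mul]
  push_cast
  apply sum_congr rfl
  intro j hj
  have h1 := mono hM (j + 1) k (by simpa using hj)
  have h2 : (2 : ℝ) ^ M k = 2 ^ (M k - M (j + 1)) * 2 ^ M (j + 1) := by
    rw [← pow_add]
    congr 1
    omega
  rw [h2]
  have h3 : ((1 / 2 : ℝ)) ^ M (j + 1) * 2 ^ M (j + 1) = 1 := by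
    rw [← mul_pow]
    norm_num
  calc ((ω j : ℕ) : ℝ) * (1 / 2) ^ M (j + 1) * (2 ^ (M k - M (j + 1)) * 2 ^ M (j + 1))
      = ((ω j : ℕ) : ℝ) * 2 ^ (M k - M (j + 1)) * ((1 / 2) ^ M (j + 1) * 2 ^ M (j + 1)) := by ring
    _ = _ := by rw [h3, mul_one]

lemma A_succ (ω : Om M) (k : ℕ) : A M (k + 1) ω = A M k ω * 2 ^ (L M k + 1) + ω k := by
  unfold A
  rw [sum_range_succ, sum_mul]
  congr 1
  · apply sum_congr rfl
    intro j hj
    have h1 := mono hM (j + 1) k (by simpa using hj)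
    rw [mul_assoc, ← pow_add]
    congr 2
    rw [L_eq hM k]
    omega
  · simp

lemma A_inj (ω ω' : Om M) : ∀ k, A M k ω = A M k ω' → ∀ j < k, ω j = ω' j := by
  intro k
  induction k with
  | zero => intro _ j hj; omega
  | succ k ih =>
    intro h j hj
    rw [A_succ hM, A_succ hM] at h
    have hp : 0 < 2 ^ (L M k + 1) := by positivity
    have h1 : (ω k : ℕ) < 2 ^ (L M k + 1) := (ω k).2.trans (Nat.pow_lt_pow_right (by norm_num) (by omega))
    have h2 : (ω' k : ℕ) < 2 ^ (L M k + 1) := (ω' k).2.trans (Nat.pow_lt_pow_right (by norm_num) (by omega))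
    have h3 : (ω k : ℕ) = ω' k := by
      have := congrArg (· % 2 ^ (L M k + 1)) h
      simp only [Nat.mul_add_mod_self_right, Nat.mod_eq_of_lt h1, Nat.mod_eq_of_lt h2] at this
      exact this
    have h4 : A M k ω = A M k ω' := by
      rw [h3] at h
      exact Nat.eq_of_mul_eq_mul_right hp (Nat.add_right_cancel h)
    rcases Nat.lt_succ_iff_lt_or_eq.1 hj with h5 | h5
    · exact ih h4 j h5
    · subst h5
      exact Fin.ext h3

omit hM in
/-- the uniform measure -/
noncomputable def unif (n : ℕ) : Measure (Fin n) := (n : ENNReal)⁻¹ • Measure.count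

omit hM in
instance (n : ℕ) [NeZero n] : IsProbabilityMeasure (unif n) := by
  constructor
  unfold unif
  rw [Measure.smul_apply, Measure.count_univ, smul_eq_mul]
  simp only [ENat.card_eq_coe_fintype_card, Fintype.card_fin]
  exact ENNReal.inv_mul_cancel (by simpa using NeZero.ne n) (by simp)

omit hM in
lemma unif_singleton (n : ℕ) (i : Fin n) : unif n {i} = (n : ENNReal)⁻¹ := by
  unfold unif
  rw [Measure.smul_apply, Measure.count_singleton, smul_eq_mul, mul_one]

/-- the product measure -/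
noncomputable def P (M : ℕ → ℕ) : Measure (Om M) := Measure.infinitePi fun k => unif (2 ^ L M k)

instance (M : ℕ → ℕ) : IsProbabilityMeasure (P M) := by
  unfold P
  infer_instance

lemma sum_L (k : ℕ) : ∑ j ∈ range k, L M j + k = M k := by
  induction k with
  | zero => simp [hM.zero]
  | succ k ih =>
    rw [sum_range_succ, L_eq hM k]
    omega

lemma P_A_le (k a : ℕ) : P M {ω | A M k ω = a} ≤ ENNReal.ofReal (2 ^ k / 2 ^ M k) := by
  by_cases hne : ∃ ω' : Om M, A M k ω' = a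
  · obtain ⟨ω', hω'⟩ := hne
    have h1 : {ω : Om M | A M k ω = a} ⊆ Set.pi (range k : Set ℕ) (fun j => {ω' j}) := by
      intro ω hω
      rw [Set.mem_pi]
      intro j hj
      exact A_inj hM ω ω' k (by rw [hω', ← hω]) j (by simpa using hj)
    refine (measure_mono h1).trans ?_
    unfold P
    rw [Measure.infinitePi_pi _ (fun i _ => measurableSet_singleton _)]
    simp only [unif_singleton]
    have h2 : ∀ j, ((2 ^ L M j : ℕ) : ENNReal)⁻¹ = ENNReal.ofReal ((1 / 2) ^ L M j) := by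
      intro j
      rw [one_div, inv_pow, ENNReal.ofReal_inv_of_pos (by positivity)]
      congr 1
      rw [ENNReal.ofReal_pow (by norm_num)]
      simp
    simp only [h2]
    rw [← ENNReal.ofReal_prod_of_nonneg (fun j _ => by positivity), prod_pow_eq_pow_sum]
    apply ENNReal.ofReal_le_ofReal
    rw [← sum_L hM k, pow_add, one_div, inv_pow]
    have : (0 : ℝ) < 2 ^ k := by positivity
    field_simp
    rfl
  · push Not at hne
    have : {ω : Om M | A M k ω = a} = ∅ := by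
      ext ω
      simp [hne ω]
    rw [this]
    simp

/-- The mass of intervals. -/
theorem ball (k : ℕ) (u d : ℝ) (hd : (1 / 2) ^ M k ≤ d) :
    P M (X M ⁻¹' Set.Icc u (u + d)) ≤ ENNReal.ofReal (3 * 2 ^ k * d) := by
  have hp : (0 : ℝ) < 2 ^ M k := by positivity
  have hd1 : 1 ≤ 2 ^ M k * d := by
    have h0 : (1 / 2 : ℝ) ^ M k * 2 ^ M k = 1 := by
      rw [← mul_pow]
      norm_num
    nlinarith
  let F : Finset ℕ := (Finset.Icc ⌈2 ^ M k * u - 1 / 2⌉ ⌊2 ^ M k * (u + d)⌋).image Int.toNat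
  have hF : (F.card : ℝ) ≤ 3 * (2 ^ M k * d) := by
    have h1 : (F.card : ℝ) ≤ ((Finset.Icc ⌈2 ^ M k * u - 1 / 2⌉ ⌊2 ^ M k * (u + d)⌋).card : ℝ) := by
      exact Nat.cast_le.2 Finset.card_image_le
    refine h1.trans ?_
    rw [Int.card_Icc]
    have h2 : ((⌊2 ^ M k * (u + d)⌋ + 1 - ⌈2 ^ M k * u - 1 / 2⌉ : ℤ) : ℝ) ≤ 3 * (2 ^ M k * d) := by
      push_cast
      have h3 := Int.floor_le (2 ^ M k * (u + d))
      have h4 := Int.le_ceil (2 ^ M k * u - 1 / 2)
      nlinarith
    have h5 : (0 : ℝ) ≤ 3 * (2 ^ M k * d) := by linarith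
    rcases le_total 0 (⌊2 ^ M k * (u + d)⌋ + 1 - ⌈2 ^ M k * u - 1 / 2⌉) with h6 | h6
    · have h7 : (((⌊2 ^ M k * (u + d)⌋ + 1 - ⌈2 ^ M k * u - 1 / 2⌉).toNat : ℤ) : ℝ) =
          ((⌊2 ^ M k * (u + d)⌋ + 1 - ⌈2 ^ M k * u - 1 / 2⌉ : ℤ) : ℝ) := by
        rw [Int.toNat_of_nonneg h6]
      calc (((⌊2 ^ M k * (u + d)⌋ + 1 - ⌈2 ^ M k * u - 1 / 2⌉).toNat : ℕ) : ℝ)
          = (((⌊2 ^ M k * (u + d)⌋ + 1 - ⌈2 ^ M k * u - 1 / 2⌉).toNat : ℤ) : ℝ) := by norm_cast
        _ ≤ _ := by rw [h7]; exact h2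
    · rw [Int.toNat_of_nonpos h6]
      simpa using h5
  have hsub : X M ⁻¹' Set.Icc u (u + d) ⊆ ⋃ a ∈ F, {ω | A M k ω = a} := by
    intro ω hω
    rw [Set.mem_iUnion₂]
    refine ⟨A M k ω, ?_, rfl⟩
    have h1 := S_le_X hM ω k
    have h2 := X_le hM ω k
    have h3 := A_eq hM ω k
    have h4 : g M k * 2 ^ M k = 1 / 2 := by
      rw [g, pow_succ]
      have : (1 / 2 : ℝ) ^ M k * 2 ^ M k = 1 := by
        rw [← mul_pow]
        norm_num
      calc (1 / 2 : ℝ) ^ M k * (1 / 2) * 2 ^ M k = ((1 / 2 : ℝ) ^ M k * 2 ^ M k) * (1 / 2) := by ring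
        _ = _ := by rw [this, one_mul]
    have h5 : (A M k ω : ℝ) ≤ 2 ^ M k * (u + d) := by
      rw [← h3]
      have := hω.2
      nlinarith
    have h6 : 2 ^ M k * u - 1 / 2 ≤ (A M k ω : ℝ) := by
      rw [← h3]
      have := hω.1
      nlinarith
    simp only [F, Finset.mem_image, Finset.mem_Icc]
    refine ⟨(A M k ω : ℤ), ⟨?_, ?_⟩, by simp⟩
    · rw [Int.ceil_le]
      exact_mod_cast h6
    · rw [Int.le_floor]
      exact_mod_cast h5
  refine (measure_mono hsub).trans ?_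
  refine (measure_biUnion_finset_le _ _).trans ?_
  refine (sum_le_sum fun a _ => P_A_le hM k a).trans ?_
  rw [sum_const, nsmul_eq_mul]
  have h7 : ((F.card : ℕ) : ENNReal) = ENNReal.ofReal (F.card : ℝ) := by simp
  rw [h7, ← ENNReal.ofReal_mul (by positivity)]
  apply ENNReal.ofReal_le_ofReal
  calc (F.card : ℝ) * (2 ^ k / 2 ^ M k) ≤ (3 * (2 ^ M k * d)) * (2 ^ k / 2 ^ M k) :=
        mul_le_mul_of_nonneg_right hF (by positivity)
    _ = 3 * 2 ^ k * d := by
        field_simp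

/-- The set. -/
theorem avoid (ω : Om M) (k : ℕ) :
    ∃ (n : ℤ) (t : ℝ), t ∈ Set.Icc (0 : ℝ) (1 / 2) ∧ 2 ^ M k * X M ω = t + n := by
  refine ⟨A M k ω, 2 ^ M k * (X M ω - S M k ω), ⟨?_, ?_⟩, ?_⟩
  · have := S_le_X hM ω k
    have h : (0 : ℝ) < 2 ^ M k := by positivity
    nlinarith
  · have h1 := X_le hM ω k
    have h4 : g M k * 2 ^ M k = 1 / 2 := by
      rw [g, pow_succ]
      have : (1 / 2 : ℝ) ^ M k * 2 ^ M k = 1 := by
        rw [← mul_pow]
        norm_num
      calc (1 / 2 : ℝ) ^ M k * (1 / 2) * 2 ^ M k = ((1 / 2 : ℝ) ^ M k * 2 ^ M k) * (1 / 2) := by ring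
        _ = _ := by rw [this, one_mul]
    rw [← h4]
    have h : (0 : ℝ) < 2 ^ M k := by positivity
    nlinarith
  · have h3 := A_eq hM ω k
    push_cast
    rw [← h3]
    ring

end Pool.Agent.J4.H71.UN
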