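import Pool.Agent.J4.H71.UN.Four

/-!
# Second moments of the Weyl sums
-/

set_option autoImplicit false

open MeasureTheory Filter Topology Finset ProbabilityTheory

namespace Pool.Agent.J4.H71.UN

open Pool.Agent.H534R3.UDist

lemma sum_geo (b : ℕ) (hb : 2 ≤ b) (T : ℝ) (N : ℕ) :
    ∑ n ∈ (range N).filter (fun n => T ≤ (b : ℝ) ^ n), T / (b : ℝ) ^ n ≤ 2 := by
  have hb2 : (2 : ℝ) ≤ b := by exact_mod_cast hb
  have hex : ∃ n : ℕ, T ≤ (b : ℝ) ^ n := by
    obtain ⟨n, hn⟩ := pow_unbounded_of_one_lt T (by linarith : (1 : ℝ) < b)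
    exact ⟨n, hn.le⟩
  classical
  set n₀ := Nat.find hex with hn₀
  have h0 : T ≤ (b : ℝ) ^ n₀ := Nat.find_spec hex
  have hsub : (range N).filter (fun n => T ≤ (b : ℝ) ^ n) ⊆
      (range N).image (fun j => n₀ + j) := by
    intro n hn
    rw [mem_filter, mem_range] at hn
    have h1 : n₀ ≤ n := Nat.find_min' hex hn.2
    rw [mem_image]
    exact ⟨n - n₀, mem_range.2 (by omega), by omega⟩
  have hterm : ∀ j, T / (b : ℝ) ^ (n₀ + j) ≤ (1 / 2) ^ j := by
    intro j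
    have h2 : (0 : ℝ) < (b : ℝ) ^ n₀ := by positivity
    have h3 : (0 : ℝ) < (b : ℝ) ^ j := by positivity
    rw [pow_add, div_le_iff₀ (by positivity)]
    have h4 : (1 : ℝ) ≤ (1 / 2) ^ j * (b : ℝ) ^ j := by
      rw [← mul_pow]
      apply one_le_pow₀
      linarith
    nlinarith
  calc ∑ n ∈ (range N).filter (fun n => T ≤ (b : ℝ) ^ n), T / (b : ℝ) ^ n
      ≤ ∑ n ∈ (range N).filter (fun n => T ≤ (b : ℝ) ^ n), (1 / 2 : ℝ) ^ (n - n₀) := by
        apply sum_le_sum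
        intro n hn
        rw [mem_filter, mem_range] at hn
        have h1 : n₀ ≤ n := Nat.find_min' hex hn.2
        have := hterm (n - n₀)
        rwa [Nat.add_sub_cancel' h1] at this
    _ ≤ ∑ n ∈ (range N).image (fun j => n₀ + j), (1 / 2 : ℝ) ^ (n - n₀) :=
        sum_le_sum_of_subset_of_nonneg hsub fun _ _ _ => by positivity
    _ = ∑ j ∈ range N, (1 / 2 : ℝ) ^ j := by
        rw [sum_image (by intro a _ b _ h; simpa using h)]
        apply sum_congr rfl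
        intro j _
        congr 1
        omega
    _ ≤ 2 := by
        have := sum_geometric_two_le N
        simpa using this

variable {M : ℕ → ℕ} (hM : Good M)

/-- bound for the Fourier transform at `h (b ^ n - b ^ m)` -/
noncomputable def G (M : ℕ → ℕ) (b h K n : ℕ) : ℝ :=
  ∑ k ∈ (range K).filter (fun k => (2 : ℝ) ^ M k / (2 * h) ≤ (b : ℝ) ^ n),
    4 * ((2 : ℝ) ^ M k / (2 * h) / (b : ℝ) ^ n)

lemma sum_G_le (b h : ℕ) (hb : 2 ≤ b) (K N : ℕ) : ∑ n ∈ range N, G M b h K n ≤ 8 * K := by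
  unfold G
  simp_rw [sum_filter]
  rw [sum_comm]
  calc ∑ k ∈ range K, ∑ n ∈ range N, (if (2 : ℝ) ^ M k / (2 * h) ≤ (b : ℝ) ^ n then
        4 * ((2 : ℝ) ^ M k / (2 * h) / (b : ℝ) ^ n) else 0)
      ≤ ∑ _k ∈ range K, (8 : ℝ) := by
        apply sum_le_sum
        intro k _
        rw [← sum_filter, ← mul_sum]
        have := sum_geo b hb ((2 : ℝ) ^ M k / (2 * h)) N
        linarith
    _ = 8 * K := by simp [mul_comm]

include hM

lemma char_le (b h : ℕ) (hb : 2 ≤ b) (hh : 1 ≤ h) {K n m : ℕ} (hmn : m < n)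
    (hK : ∀ k, (2 : ℝ) ^ M k ≤ 2 * h * (b : ℝ) ^ n → k < K) :
    ‖∫ ω, ee ((h * (b : ℝ) ^ n - h * (b : ℝ) ^ m) * X M ω) ∂(P M)‖ ≤ G M b h K n := by
  have hb2 : (2 : ℝ) ≤ b := by exact_mod_cast hb
  have hh1 : (1 : ℝ) ≤ h := by exact_mod_cast hh
  have hbn : (0 : ℝ) < (b : ℝ) ^ n := by positivity
  have hbm : (0 : ℝ) < (b : ℝ) ^ m := by positivity
  have h1 : 2 * (b : ℝ) ^ m ≤ (b : ℝ) ^ n := by
    calc 2 * (b : ℝ) ^ m ≤ b * (b : ℝ) ^ m := by nlinarith
      _ = (b : ℝ) ^ (m + 1) := by rw [pow_succ]; ring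
      _ ≤ (b : ℝ) ^ n := pow_le_pow_right₀ (by linarith) hmn
  have hξ : h * (b : ℝ) ^ n / 2 ≤ h * (b : ℝ) ^ n - h * (b : ℝ) ^ m := by nlinarith
  have hξ0 : 0 < h * (b : ℝ) ^ n - h * (b : ℝ) ^ m := by
    have : 0 < h * (b : ℝ) ^ n / 2 := by positivity
    linarith
  -- the largest k
  have hex : ∃ k, 2 * h * (b : ℝ) ^ n < (2 : ℝ) ^ M (k + 1) := by
    refine ⟨K, ?_⟩
    by_contra hcon
    push Not at hcon
    have := hK _ hcon
    omega
  classical
  set k := Nat.find hex with hk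
  have hk1 : 2 * h * (b : ℝ) ^ n < (2 : ℝ) ^ M (k + 1) := Nat.find_spec hex
  have hk2 : (2 : ℝ) ^ M k ≤ 2 * h * (b : ℝ) ^ n := by
    rcases Nat.eq_zero_or_pos k with h0 | h0
    · rw [h0, hM.zero, pow_zero]
      have : (1 : ℝ) ≤ (b : ℝ) ^ n := one_le_pow₀ (by linarith)
      nlinarith
    · have h2 := Nat.find_min hex (m := k - 1) (by omega)
      rw [Nat.sub_add_cancel h0] at h2
      push Not at h2
      exact h2
  have h3 := decay hM (h * (b : ℝ) ^ n - h * (b : ℝ) ^ m) k hξ0 (by nlinarith)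
  refine h3.trans ?_
  have h4 : (2 : ℝ) ^ M k / (h * (b : ℝ) ^ n - h * (b : ℝ) ^ m) ≤
      4 * ((2 : ℝ) ^ M k / (2 * h) / (b : ℝ) ^ n) := by
    have h5 : 4 * ((2 : ℝ) ^ M k / (2 * h) / (b : ℝ) ^ n) = (2 : ℝ) ^ M k / (h * (b : ℝ) ^ n / 2) := by
      field_simp
      ring
    rw [h5]
    apply div_le_div_of_nonneg_left (by positivity) (by positivity) hξ
  refine h4.trans ?_
  unfold G
  apply single_le_sum (f := fun k => 4 * ((2 : ℝ) ^ M k / (2 * h) / (b : ℝ) ^ n))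
    (fun i _ => by positivity)
  rw [mem_filter, mem_range]
  refine ⟨hK k hk2, ?_⟩
  rw [div_le_iff₀ (by positivity)]
  linarith

omit hM in
lemma norm_char_neg (c : ℝ) :
    ‖∫ ω, ee (c * X M ω) ∂(P M)‖ = ‖∫ ω, ee (-c * X M ω) ∂(P M)‖ := by
  have : ∀ ω, ee (-c * X M ω) = (starRingEnd ℂ) (ee (c * X M ω)) := by
    intro ω
    rw [← ee_neg]
    congr 1
    ring
  simp_rw [this]
  rw [integral_conj, RCLike.norm_conj]

/-- Second moments. -/
theorem moment (hsq : ∀ k, k ^ 2 ≤ M k) (b h : ℕ) (hb : 2 ≤ b) (hh : 1 ≤ h) :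
    ∃ C : ℝ, ∀ N : ℕ, ∫ ω, ‖∑ n ∈ range N, ee (h * ((b : ℝ) ^ n * X M ω))‖ ^ 2 ∂(P M) ≤
      C * (N : ℝ) ^ (3 / 2 : ℝ) := by
  refine ⟨1 + 16 * (Real.sqrt (1 + h + b) + 1), fun N => ?_⟩
  rcases Nat.eq_zero_or_pos N with rfl | hN
  · simp
  have hN1 : (1 : ℝ) ≤ N := by exact_mod_cast hN
  have hX := continuous_X hM
  have hcont : ∀ c : ℝ, Continuous (fun ω => ee (c * X M ω)) := fun c =>
    continuous_ee.comp (continuous_const.mul hX)
  have hint : ∀ c : ℝ, Integrable (fun ω => ee (c * X M ω)) (P M) := fun c =>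
    Integrable.of_bound (hcont c).aestronglyMeasurable 1 (ae_of_all _ fun ω => by rw [norm_ee])
  -- expansion
  have h1 : ∀ ω, ((‖∑ n ∈ range N, ee (h * ((b : ℝ) ^ n * X M ω))‖ ^ 2 : ℝ) : ℂ) =
      ∑ n ∈ range N, ∑ m ∈ range N, ee ((h * (b : ℝ) ^ n - h * (b : ℝ) ^ m) * X M ω) := by
    intro ω
    rw [← Complex.normSq_eq_norm_sq, Complex.normSq_eq_conj_mul_self, mul_comm, map_sum,
      sum_mul_sum]
    apply sum_congr rfl
    intro n _
    apply sum_congr rfl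
    intro m _
    rw [← ee_neg, ← ee_add]
    congr 1
    ring
  have h2 : ((∫ ω, ‖∑ n ∈ range N, ee (h * ((b : ℝ) ^ n * X M ω))‖ ^ 2 ∂(P M) : ℝ) : ℂ) =
      ∑ n ∈ range N, ∑ m ∈ range N,
        ∫ ω, ee ((h * (b : ℝ) ^ n - h * (b : ℝ) ^ m) * X M ω) ∂(P M) := by
    rw [← integral_complex_ofReal]
    simp_rw [h1]
    rw [integral_finsetSum _ fun n _ => integrable_finsetSum _ fun m _ => hint _]
    apply sum_congr rfl
    intro n _
    rw [integral_finsetSum _ fun m _ => hint _]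
  have h3 : ∫ ω, ‖∑ n ∈ range N, ee (h * ((b : ℝ) ^ n * X M ω))‖ ^ 2 ∂(P M) ≤
      ∑ n ∈ range N, ∑ m ∈ range N,
        ‖∫ ω, ee ((h * (b : ℝ) ^ n - h * (b : ℝ) ^ m) * X M ω) ∂(P M)‖ := by
    have h4 : 0 ≤ ∫ ω, ‖∑ n ∈ range N, ee (h * ((b : ℝ) ^ n * X M ω))‖ ^ 2 ∂(P M) :=
      integral_nonneg fun ω => by positivity
    calc ∫ ω, ‖∑ n ∈ range N, ee (h * ((b : ℝ) ^ n * X M ω))‖ ^ 2 ∂(P M)
        = ‖((∫ ω, ‖∑ n ∈ range N, ee (h * ((b : ℝ) ^ n * X M ω))‖ ^ 2 ∂(P M) : ℝ) : ℂ)‖ := by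
          rw [Complex.norm_real, Real.norm_of_nonneg h4]
      _ ≤ _ := by
          rw [h2]
          exact (norm_sum_le _ _).trans (sum_le_sum fun n _ => norm_sum_le _ _)
  -- the number of relevant k
  set K : ℕ := ⌊Real.sqrt ((1 + h + b) * N)⌋₊ + 1 with hKdef
  have hKb : (K : ℝ) ≤ (Real.sqrt (1 + h + b) + 1) * Real.sqrt N := by
    have h5 : 1 ≤ Real.sqrt N := by
      rw [Real.one_le_sqrt]
      exact hN1
    have h6 := Nat.floor_le (Real.sqrt_nonneg ((1 + h + b) * N))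
    rw [hKdef]
    push_cast
    rw [Real.sqrt_mul (by positivity)] at h6 ⊢
    nlinarith
  have hK : ∀ n < N, ∀ k, (2 : ℝ) ^ M k ≤ 2 * h * (b : ℝ) ^ n → k < K := by
    intro n hn k hk
    have h5 : (2 : ℝ) ^ M k ≤ 2 ^ (1 + h + b * n) := by
      refine hk.trans ?_
      rw [pow_add, pow_add, pow_one, pow_mul]
      have h6 : (h : ℝ) ≤ 2 ^ h := by exact_mod_cast Nat.lt_two_pow_self.le
      have h7 : (b : ℝ) ≤ 2 ^ b := by exact_mod_cast Nat.lt_two_pow_self.le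
      gcongr
    have h6 : M k ≤ 1 + h + b * n := by
      by_contra hcon
      push Not at hcon
      have : (2 : ℝ) ^ (1 + h + b * n) < 2 ^ M k := pow_lt_pow_right₀ (by norm_num) hcon
      linarith
    have h7 : k ^ 2 ≤ (1 + h + b) * N := by
      refine (hsq k).trans (h6.trans ?_)
      nlinarith [Nat.zero_le h, Nat.zero_le b]
    rw [hKdef, Nat.lt_succ_iff]
    apply Nat.le_floor
    apply Real.le_sqrt_of_sq_le
    exact_mod_cast h7
  have h8 : ∀ n < N, ∑ m ∈ range N,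
      ‖∫ ω, ee ((h * (b : ℝ) ^ n - h * (b : ℝ) ^ m) * X M ω) ∂(P M)‖ ≤
      1 + N * G M b h K n + ∑ m ∈ range N, G M b h K m := by
    intro n hn
    have hG : ∀ m, 0 ≤ G M b h K m := fun m => by
      unfold G
      exact sum_nonneg fun _ _ => by positivity
    have h9 : ∀ m ∈ range N, ‖∫ ω, ee ((h * (b : ℝ) ^ n - h * (b : ℝ) ^ m) * X M ω) ∂(P M)‖ ≤
        (if m = n then 1 else 0) + G M b h K n + G M b h K m := by
      intro m hm
      rw [mem_range] at hm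
      rcases lt_trichotomy m n with hmn | hmn | hmn
      · rw [if_neg (by omega)]
        have := char_le hM b h hb hh hmn (hK n hn)
        linarith [hG m]
      · subst hmn
        rw [if_pos rfl]
        have h10 : ‖∫ ω, ee ((h * (b : ℝ) ^ m - h * (b : ℝ) ^ m) * X M ω) ∂(P M)‖ ≤ 1 := by
          refine (norm_integral_le_of_norm_le_const (C := 1) (ae_of_all _ fun ω => ?_)).trans ?_
          · rw [norm_ee]
          · simp
        linarith [hG m]
      · rw [if_neg (by omega)]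
        have h10 := char_le hM b h hb hh hmn (hK m hm)
        rw [norm_char_neg]
        have e : -(h * (b : ℝ) ^ n - h * (b : ℝ) ^ m) = h * (b : ℝ) ^ m - h * (b : ℝ) ^ n := by ring
        rw [e]
        linarith [hG n]
    refine (sum_le_sum h9).trans ?_
    rw [sum_add_distrib, sum_add_distrib, sum_ite_eq', if_pos (by simpa using hn)]
    simp
  refine h3.trans ((sum_le_sum fun n hn => h8 n (by simpa using hn)).trans ?_)
  rw [sum_add_distrib, sum_add_distrib, ← mul_sum]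
  simp only [sum_const, card_range, nsmul_eq_mul, mul_one]
  have h12 := sum_G_le (M := M) b h hb K N
  have h13 : (N : ℝ) ^ (3 / 2 : ℝ) = N * Real.sqrt N := by
    rw [Real.sqrt_eq_rpow, show (3 / 2 : ℝ) = 1 + 1 / 2 by norm_num, Real.rpow_add (by linarith),
      Real.rpow_one]
  rw [h13]
  have h14 : 1 ≤ Real.sqrt N := by
    rw [Real.one_le_sqrt]
    exact hN1
  have h15 : (N : ℝ) * ∑ n ∈ range N, G M b h K n ≤ N * (8 * K) :=
    mul_le_mul_of_nonneg_left h12 (by linarith)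
  have h16 : (N : ℝ) * (8 * K) ≤ N * (8 * ((Real.sqrt (1 + h + b) + 1) * Real.sqrt N)) := by
    gcongr
  have h17 : (N : ℝ) ≤ N * Real.sqrt N := by nlinarith
  nlinarith

end Pool.Agent.J4.H71.UN
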